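import Pool.Agent.H53.UK.Targets

/-!
Row HXU of the board uk_modules (MP_c62aed_lc): few candidates violate `H3`.
-/

set_option autoImplicit false

namespace Pool.Agent.H61.UK.HXU

open Finset
open Pool.Agent.H53.UK

theorem bad_count {G α ι : Type*} [Fintype G] [DecidableEq G] [Fintype ι] [DecidableEq ι]
    (A : Finset α) (P : α → G → Prop) [∀ a, DecidablePred (P a)] (s : ℕ) (ρ : ℝ)
    (hρ : ∀ a ∈ A, ((univ.filter (P a)).card : ℝ) ≤ ρ * Fintype.card G)
    (B : Finset (ι → G))
    (hB : ∀ g ∈ B, ∃ a ∈ A, s < (univ.filter (fun j => P a (g j))).card) :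
    (B.card : ℝ) ≤ (A.card : ℝ) * ((Fintype.card ι).choose (s + 1)) *
      (ρ ^ (s + 1) * (Fintype.card G : ℝ) ^ (Fintype.card ι)) := by
  classical
  let Bd : Finset (ι → G) :=
    A.biUnion fun a => (powersetCard (s + 1) (univ : Finset ι)).biUnion fun J =>
      Fintype.piFinset fun j => if j ∈ J then univ.filter (P a) else univ
  have hall : B ⊆ Bd := by
    intro g hg
    obtain ⟨a, ha, hc⟩ := hB g hg
    obtain ⟨J, hJ, hJc⟩ := exists_subset_card_eq (Nat.succ_le_of_lt hc)
    simp only [Bd, mem_biUnion, mem_powersetCard]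
    refine ⟨a, ha, J, ⟨subset_univ _, hJc⟩, ?_⟩
    rw [Fintype.mem_piFinset]
    intro j
    by_cases hj : j ∈ J
    · have := hJ hj
      simp only [mem_filter, mem_univ, true_and] at this
      simp [hj, this]
    · simp [hj]
  have h2 : (Bd.card : ℝ) ≤ ∑ a ∈ A, ∑ J ∈ powersetCard (s + 1) (univ : Finset ι),
      ((Fintype.piFinset fun j => if j ∈ J then univ.filter (P a) else univ).card : ℝ) := by
    have h3 : Bd.card ≤ ∑ a ∈ A, ∑ J ∈ powersetCard (s + 1) (univ : Finset ι),
        (Fintype.piFinset fun j => if j ∈ J then univ.filter (P a) else univ).card :=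
      le_trans card_biUnion_le (sum_le_sum fun a _ => card_biUnion_le)
    exact_mod_cast h3
  have h4 : ∀ a ∈ A, ∀ J ∈ powersetCard (s + 1) (univ : Finset ι),
      ((Fintype.piFinset fun j => if j ∈ J then univ.filter (P a) else univ).card : ℝ) ≤
        ρ ^ (s + 1) * (Fintype.card G : ℝ) ^ (Fintype.card ι) := by
    intro a ha J hJ
    rw [mem_powersetCard] at hJ
    rw [Fintype.card_piFinset]
    push_cast
    have hfac : ∀ j : ι, (((if j ∈ J then univ.filter (P a) else univ : Finset G).card : ℕ) : ℝ)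
        ≤ (if j ∈ J then ρ else 1) * (Fintype.card G : ℝ) := by
      intro j
      by_cases hj : j ∈ J
      · simpa [hj] using hρ a ha
      · simp [hj, Finset.card_univ]
    calc ∏ j : ι, (((if j ∈ J then univ.filter (P a) else univ : Finset G).card : ℕ) : ℝ)
        ≤ ∏ j : ι, (if j ∈ J then ρ else 1) * (Fintype.card G : ℝ) :=
          prod_le_prod (fun _ _ => by positivity) (fun j _ => hfac j)
      _ = (∏ j : ι, (if j ∈ J then ρ else 1)) * (Fintype.card G : ℝ) ^ (Fintype.card ι) := by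
          rw [prod_mul_distrib]; simp
      _ = ρ ^ (s + 1) * (Fintype.card G : ℝ) ^ (Fintype.card ι) := by
          congr 1
          rw [prod_ite, prod_const, prod_const_one, mul_one]
          congr 1
          rw [← hJ.2]; congr 1; ext j; simp
  calc (B.card : ℝ) ≤ (Bd.card : ℝ) := by exact_mod_cast card_le_card hall
    _ ≤ _ := h2
    _ ≤ ∑ a ∈ A, ∑ J ∈ powersetCard (s + 1) (univ : Finset ι),
        (ρ ^ (s + 1) * (Fintype.card G : ℝ) ^ (Fintype.card ι)) :=
        sum_le_sum fun a ha => sum_le_sum fun J hJ => h4 a ha J hJ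
    _ = _ := by
        rw [sum_const, sum_const, card_powersetCard, nsmul_eq_mul, nsmul_eq_mul]
        simp only [card_univ]
        ring

open Classical in
/-- the number of the signs for which the clause is violated -/
theorem sign_count {n k : ℕ} (x : Fin n → Bool) (B : {B : Finset (Fin n) // B.card = k}) :
    ((univ : Finset (Fin n → Bool)).filter fun σ => VC (k := k) (B, σ) x).card = 2 ^ (n - k) := by
  have h1 : ((univ : Finset (Fin n → Bool)).filter fun σ => VC (k := k) (B, σ) x) =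
      Fintype.piFinset (fun i => if i ∈ B.1 then {!x i} else univ) := by
    ext σ
    rw [mem_filter, Fintype.mem_piFinset]
    unfold VC
    constructor
    · rintro ⟨-, h⟩ i
      by_cases hi : i ∈ B.1
      · have h5 : x i ≠ σ i := h i hi
        rw [if_pos hi, mem_singleton]
        revert h5
        cases x i <;> cases σ i <;> simp
      · rw [if_neg hi]
        exact mem_univ _
    · intro h
      refine ⟨mem_univ _, fun i hi => ?_⟩
      have := h i
      rw [if_pos hi, mem_singleton] at this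
      show x i ≠ σ i
      rw [this]
      cases x i <;> simp
  rw [h1, Fintype.card_piFinset]
  have h2 : ∀ i : Fin n, ((if i ∈ B.1 then {!x i} else univ : Finset Bool)).card =
      if i ∈ B.1 then 1 else 2 := by
    intro i
    by_cases hi : i ∈ B.1 <;> simp [hi]
  rw [prod_congr rfl fun i _ => h2 i, prod_ite, prod_const_one, one_mul, prod_const]
  congr 1
  have h3 : (univ.filter fun i => ¬ i ∈ B.1) = B.1ᶜ := by
    ext i
    simp
  rw [h3, card_compl, Fintype.card_fin, B.2]

open Classical in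
/-- the share of the clauses inside `(A, x)` -/
theorem kc_count (hSUB : Pool.Agent.H15.FLX.T_SUB) {n k : ℕ} (β : ℝ) (hβ : 0 ≤ β)
    (A : Finset (Fin n)) (x : Fin n → Bool) (hA : (A.card : ℝ) ≤ β * n) :
    (((univ : Finset (KC n k)).filter fun c => c.1.1 ⊆ A ∧ VC c x).card : ℝ) ≤
      (β / 2) ^ k * Fintype.card (KC n k) := by
  have h1 : ((univ : Finset (KC n k)).filter fun c => c.1.1 ⊆ A ∧ VC c x).card =
      ((univ : Finset {B : Finset (Fin n) // B.card = k}).filter fun B => B.1 ⊆ A).card *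
        2 ^ (n - k) := by
    rw [card_filter, Fintype.sum_prod_type, card_filter, sum_mul]
    refine sum_congr rfl fun B _ => ?_
    by_cases hB : B.1 ⊆ A
    · rw [if_pos hB, one_mul, ← sign_count x B, card_filter]
      refine sum_congr rfl fun σ _ => ?_
      simp only [hB, true_and]
    · rw [if_neg hB, zero_mul]
      refine sum_eq_zero fun σ _ => ?_
      rw [if_neg]
      exact fun h => hB h.1
  rw [h1]
  by_cases hk : k ≤ n
  · have h2 := hSUB β n k A hβ hA
    rw [Nat.card_eq_fintype_card, Nat.card_eq_fintype_card, Fintype.card_subtype] at h2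
    rw [Fintype.card_prod, Fintype.card_fun, Fintype.card_bool, Fintype.card_fin]
    push_cast
    have h3 : (2 : ℝ) ^ n = 2 ^ (n - k) * 2 ^ k := by
      rw [← pow_add, Nat.sub_add_cancel hk]
    rw [h3, div_pow]
    have h4 : β ^ k / 2 ^ k * ((Fintype.card {B : Finset (Fin n) // B.card = k} : ℝ) *
        (2 ^ (n - k) * 2 ^ k)) =
        β ^ k * (Fintype.card {B : Finset (Fin n) // B.card = k} : ℝ) * 2 ^ (n - k) := by
      field_simp
    rw [h4]
    exact mul_le_mul_of_nonneg_right h2 (by positivity)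
  · have h2 : ((univ : Finset {B : Finset (Fin n) // B.card = k}).filter
        fun B => B.1 ⊆ A) = ∅ := by
      rw [filter_eq_empty_iff]
      intro B _ _
      have h3 := card_le_univ B.1
      rw [B.2, Fintype.card_fin] at h3
      exact hk h3
    rw [h2, card_empty, zero_mul, Nat.cast_zero]
    positivity

theorem pf_HXU (hSUB : Pool.Agent.H15.FLX.T_SUB) : T_HXU := by
  classical
  intro ε β n k m μ w s₀ hε hβ hw hm hμ hn
  obtain ⟨S, hS⟩ : ∃ S : ℕ, S = Fintype.card (KC n k) := ⟨_, rfl⟩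
  obtain ⟨M, hM⟩ : ∃ M : ℕ, M = Fintype.card (Fin m × Fin μ) := ⟨_, rfl⟩
  have hMm : (M : ℝ) = m * μ := by
    rw [hM, Fintype.card_prod, Fintype.card_fin, Fintype.card_fin]
    push_cast
    rfl
  have hcard : Nat.card (Fin m × Fin μ → KC n k) = S ^ M := by
    rw [Nat.card_eq_fintype_card, Fintype.card_fun, ← hS, ← hM]
  have hb := bad_count (G := KC n k) (ι := Fin m × Fin μ)
    ((univ : Finset (Finset (Fin n) × (Fin n → Bool))).filter fun p => p.1.card ≤ w + k)
    (fun p c => c.1.1 ⊆ p.1 ∧ VC c p.2) s₀ ((β / 2) ^ k) (by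
      intro p hp
      have hAc : p.1.card ≤ w + k := (mem_filter.1 hp).2
      have hAr : (p.1.card : ℝ) ≤ β * n := by
        refine le_trans ?_ hw
        exact_mod_cast hAc
      exact kc_count hSUB β hβ.le p.1 p.2 hAr)
    ((univ : Finset (Fin m × Fin μ → KC n k)).filter fun H => ¬ H3 H w s₀) (by
      intro H hH
      have h1 : ¬ H3 H w s₀ := (mem_filter.1 hH).2
      unfold H3 at h1
      push Not at h1
      obtain ⟨p, hp, hc⟩ := h1
      refine ⟨p, mem_filter.2 ⟨mem_univ _, hp⟩, lt_of_lt_of_le hc (le_of_eq ?_)⟩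
      unfold cnU
      rw [Nat.card_eq_fintype_card, Fintype.card_subtype]
      unfold InU
      congr 1
      ext j
      simp only [mem_filter])
  rw [← hS, ← hM] at hb
  have hA : (((univ : Finset (Finset (Fin n) × (Fin n → Bool))).filter
      fun p => p.1.card ≤ w + k).card : ℝ) ≤ 2 ^ (2 * (n : ℝ)) := by
    have h1 : ((univ : Finset (Finset (Fin n) × (Fin n → Bool))).filter
        fun p => p.1.card ≤ w + k).card ≤ 2 ^ (2 * n) := by
      refine le_trans (card_filter_le _ _) ?_
      rw [card_univ, Fintype.card_prod, Fintype.card_finset, Fintype.card_fun, Fintype.card_bool,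
        Fintype.card_fin, ← pow_add]
      exact le_of_eq (by ring_nf)
    have h2 : (2 : ℝ) ^ (2 * (n : ℝ)) = ((2 ^ (2 * n) : ℕ) : ℝ) := by
      rw [show (2 * (n : ℝ)) = ((2 * n : ℕ) : ℝ) by push_cast; ring, Real.rpow_natCast]
      push_cast
      ring
    rw [h2]
    exact_mod_cast h1
  have hC : ((M.choose (s₀ + 1) : ℕ) : ℝ) ≤ (M : ℝ) ^ (s₀ + 1) := by
    exact_mod_cast Nat.choose_le_pow M (s₀ + 1)
  have hMb : (M : ℝ) * (β / 2) ^ k ≤ 2 ^ (-(ε / 2 * k)) := by
    have e1 : (M : ℝ) * (β / 2) ^ k = (m * β ^ k) * μ * (2 : ℝ) ^ (-(k : ℝ)) := by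
      rw [hMm, div_pow, Real.rpow_neg (by norm_num), Real.rpow_natCast]
      field_simp
    rw [e1]
    calc (m * β ^ k) * μ * (2 : ℝ) ^ (-(k : ℝ)) ≤
          2 ^ ((1 - ε) * k) * 2 ^ (ε / 2 * k) * (2 : ℝ) ^ (-(k : ℝ)) := by
          gcongr
      _ = 2 ^ (-(ε / 2 * k)) := by
          rw [← Real.rpow_add (by norm_num), ← Real.rpow_add (by norm_num)]
          congr 1
          ring
  have hkey : (2 : ℝ) ^ (2 * (n : ℝ) + 2) *
      (((univ : Finset (Finset (Fin n) × (Fin n → Bool))).filter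
        fun p => p.1.card ≤ w + k).card * (M.choose (s₀ + 1)) * ((β / 2) ^ k) ^ (s₀ + 1)) ≤
          1 := by
    calc _ ≤ (2 : ℝ) ^ (2 * (n : ℝ) + 2) * ((2 : ℝ) ^ (2 * (n : ℝ)) * (M : ℝ) ^ (s₀ + 1) *
          ((β / 2) ^ k) ^ (s₀ + 1)) := by
          gcongr
      _ = (2 : ℝ) ^ (2 * (n : ℝ) + 2) * ((2 : ℝ) ^ (2 * (n : ℝ)) *
            ((M : ℝ) * (β / 2) ^ k) ^ (s₀ + 1)) := by
          rw [mul_pow]; ring
      _ ≤ (2 : ℝ) ^ (2 * (n : ℝ) + 2) * ((2 : ℝ) ^ (2 * (n : ℝ)) *
            ((2 : ℝ) ^ (-(ε / 2 * k))) ^ (s₀ + 1)) := by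
          gcongr
      _ = (2 : ℝ) ^ (4 * (n : ℝ) + 2 - ε / 2 * k * (s₀ + 1)) := by
          rw [← Real.rpow_natCast ((2 : ℝ) ^ (-(ε / 2 * k))), ← Real.rpow_mul (by norm_num),
            ← Real.rpow_add (by norm_num), ← Real.rpow_add (by norm_num)]
          congr 1
          push_cast
          ring
      _ ≤ (2 : ℝ) ^ (0 : ℝ) := Real.rpow_le_rpow_of_exponent_le (by norm_num) (by linarith)
      _ = 1 := Real.rpow_zero 2
  have hnc : Nat.card {H : Fin m × Fin μ → KC n k // ¬ H3 H w s₀} =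
      ((univ : Finset (Fin m × Fin μ → KC n k)).filter fun H => ¬ H3 H w s₀).card := by
    rw [Nat.card_eq_fintype_card, Fintype.card_subtype]
  rw [hnc, hcard]
  have hfin : ((2 ^ (2 * n + 2) * ((univ : Finset (Fin m × Fin μ → KC n k)).filter
      fun H => ¬ H3 H w s₀).card : ℕ) : ℝ) ≤ ((S ^ M : ℕ) : ℝ) := by
    push_cast
    have h3 : (0 : ℝ) ≤ (S : ℝ) ^ M := by positivity
    have h4 : (2 : ℝ) ^ (2 * (n : ℝ) + 2) = 2 ^ (2 * n + 2) := by
      rw [show (2 * (n : ℝ) + 2) = ((2 * n + 2 : ℕ) : ℝ) by push_cast; ring, Real.rpow_natCast]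
    calc (2 : ℝ) ^ (2 * n + 2) * (((univ : Finset (Fin m × Fin μ → KC n k)).filter
          fun H => ¬ H3 H w s₀).card : ℝ)
        ≤ (2 : ℝ) ^ (2 * n + 2) * ((((univ : Finset (Finset (Fin n) × (Fin n → Bool))).filter
          fun p => p.1.card ≤ w + k).card : ℝ) * (M.choose (s₀ + 1)) *
            (((β / 2) ^ k) ^ (s₀ + 1) * (S : ℝ) ^ M)) :=
          mul_le_mul_of_nonneg_left hb (by positivity)
      _ = ((2 : ℝ) ^ (2 * (n : ℝ) + 2) *
          (((univ : Finset (Finset (Fin n) × (Fin n → Bool))).filter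
            fun p => p.1.card ≤ w + k).card * (M.choose (s₀ + 1)) *
              ((β / 2) ^ k) ^ (s₀ + 1))) * (S : ℝ) ^ M := by
          rw [h4]
          ring
      _ ≤ 1 * (S : ℝ) ^ M := mul_le_mul_of_nonneg_right hkey h3
      _ = (S : ℝ) ^ M := one_mul _
  exact_mod_cast hfin

end Pool.Agent.H61.UK.HXU
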